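import Pool.Agent.H58.FL.TargetsB
import Pool.Agent.H42.FR.SP

/-!
# Two open sets of the complex projective space (row CPU of flc_modules)
-/

set_option autoImplicit false

open Topology unitInterval

namespace Pool.Agent.H67.FL

open Pool.Agent.H58.FL Pool.Agent.H59 Pool.Agent.H48.FR

noncomputable section

/-- the vectors over a set of points -/
abbrev XU {m : ℕ} (U : Set (CPn m)) : Type :=
  {x : Fin (m + 1) → ℂ // ∃ hx : x ≠ 0, mk x hx ∈ U}

/-- the point under a vector -/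
def pt {m : ℕ} {U : Set (CPn m)} (x : XU U) : U := ⟨mk x.1 x.2.1, x.2.2⟩

theorem cont_of {W Z : Type} [TopologicalSpace W] [CompactSpace W] [T2Space W]
    [TopologicalSpace Z] {m : ℕ} {U : Set (CPn m)} (hU : IsOpen U) (G : W × U → Z)
    (h : Continuous fun p : W × XU U => G (p.1, pt p.2)) : Continuous G := by
  obtain ⟨hc1, -, hc2, hc3⟩ := Pool.Agent.H42.FR.sp ℂ m
  let q : W × Sph ℂ m → W × CPn m := Prod.map id prS
  have hq : IsQuotientMap q := by
    have hc : Continuous q := continuous_id.prodMap hc2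
    exact hc.isClosedMap.isQuotientMap hc (Function.surjective_id.prodMap hc3)
  let O : Set (W × CPn m) := {p | p.2 ∈ U}
  have hO : IsOpen O := hU.preimage continuous_snd
  have hqr := hq.restrictPreimage_isOpen hO
  let G1 : O → Z := fun p => G (p.1.1, ⟨p.1.2, p.2⟩)
  have hG1 : Continuous G1 := by
    rw [hqr.continuous_iff]
    let j : ↥(q ⁻¹' O) → W × XU U := fun p => (p.1.1, ⟨p.1.2.1, sph_ne p.1.2, p.2⟩)
    have hj : Continuous j := by
      refine Continuous.prodMk (continuous_fst.comp continuous_subtype_val) ?_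
      refine Continuous.subtype_mk ?_ _
      exact continuous_subtype_val.comp (continuous_snd.comp continuous_subtype_val)
    exact h.comp hj
  have e : G = G1 ∘ fun p : W × U => (⟨(p.1, p.2.1), p.2.2⟩ : O) := rfl
  rw [e]
  refine hG1.comp (Continuous.subtype_mk ?_ _)
  exact continuous_fst.prodMk (continuous_subtype_val.comp continuous_snd)

theorem cont_of' {Z : Type} [TopologicalSpace Z] {m : ℕ} {U : Set (CPn m)} (hU : IsOpen U)
    (G : U → Z) (h : Continuous fun x : XU U => G (pt x)) : Continuous G := by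
  have h1 : Continuous fun p : Unit × U => G p.2 :=
    cont_of hU (fun p : Unit × U => G p.2) (h.comp continuous_snd)
  exact h1.comp (Continuous.prodMk (continuous_const (y := ())) continuous_id)

theorem rep_mk {m : ℕ} (x : Fin (m + 1) → ℂ) (hx : x ≠ 0) :
    ∃ a : ℂ, a ≠ 0 ∧ PP.rep (mk x hx) = a • x := PP.exists_rep x hx

theorem mk_smul {m : ℕ} (a : ℂ) (x y : Fin (m + 1) → ℂ) (hx : x ≠ 0) (hy : y ≠ 0)
    (ha : a ≠ 0) (h : a • y = x) : mk x hx = mk y hy := (PP.mk_eq_iff hx hy).2 ⟨a, ha, h⟩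

/-- first open set -/
def O1 (n : ℕ) : Set (CPn (n + 1)) := {P | Fin.tail (PP.rep P) ≠ 0}

/-- second open set -/
def O2 (n : ℕ) : Set (CPn (n + 1)) := {P | PP.rep P 0 ≠ 0}

theorem tail_smul {n : ℕ} (a : ℂ) (x : Fin (n + 2) → ℂ) :
    (Fin.tail (a • x) : Fin (n + 1) → ℂ) = a • (Fin.tail x : Fin (n + 1) → ℂ) := rfl

theorem mem_O1 {n : ℕ} (x : Fin (n + 2) → ℂ) (hx : x ≠ 0) :
    mk x hx ∈ O1 n ↔ (Fin.tail x : Fin (n + 1) → ℂ) ≠ 0 := by
  obtain ⟨a, ha, h⟩ := rep_mk x hx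
  unfold O1
  rw [Set.mem_ofPred_eq, h, tail_smul]
  exact smul_ne_zero_iff_right ha

theorem mem_O2 {n : ℕ} (x : Fin (n + 2) → ℂ) (hx : x ≠ 0) :
    mk x hx ∈ O2 n ↔ x 0 ≠ 0 := by
  obtain ⟨a, ha, h⟩ := rep_mk x hx
  unfold O2
  rw [Set.mem_ofPred_eq, h, Pi.smul_apply]
  exact smul_ne_zero_iff_right ha

theorem isOpen_pre {m : ℕ} (U : Set (CPn m))
    (h : IsOpen {x : Sph ℂ m | mk x.1 (sph_ne x) ∈ U}) : IsOpen U := by
  obtain ⟨hc1, -, hc2, hc3⟩ := Pool.Agent.H42.FR.sp ℂ m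
  have hq : IsQuotientMap (prS : Sph ℂ m → CPn m) := hc2.isClosedMap.isQuotientMap hc2 hc3
  exact hq.isOpen_preimage.1 h

theorem cont_tail {n : ℕ} : Continuous fun x : Fin (n + 2) → ℂ => (Fin.tail x : Fin (n + 1) → ℂ) :=
  continuous_pi fun i => continuous_apply i.succ

theorem cont_cons {A : Type} [TopologicalSpace A] {n : ℕ} {a : A → ℂ} {b : A → Fin (n + 1) → ℂ}
    (ha : Continuous a) (hb : Continuous b) :
    Continuous fun t => (Fin.cons (a t) (b t) : Fin (n + 2) → ℂ) := by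
  refine continuous_pi fun i => ?_
  refine Fin.cases ?_ (fun i => ?_) i
  · simp only [Fin.cons_zero]
    exact ha
  · simp only [Fin.cons_succ]
    exact (continuous_apply i).comp hb

theorem isOpen_O1 (n : ℕ) : IsOpen (O1 n) := by
  apply isOpen_pre
  have : {x : Sph ℂ (n + 1) | mk x.1 (sph_ne x) ∈ O1 n} =
      {x | (Fin.tail x.1 : Fin (n + 1) → ℂ) ≠ 0} := by
    ext x
    exact mem_O1 x.1 (sph_ne x)
  rw [this]
  exact isOpen_ne_fun (cont_tail.comp continuous_subtype_val) continuous_const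

theorem isOpen_O2 (n : ℕ) : IsOpen (O2 n) := by
  apply isOpen_pre
  have : {x : Sph ℂ (n + 1) | mk x.1 (sph_ne x) ∈ O2 n} = {x | x.1 0 ≠ 0} := by
    ext x
    exact mem_O2 x.1 (sph_ne x)
  rw [this]
  exact isOpen_ne_fun ((continuous_apply 0).comp continuous_subtype_val) continuous_const

theorem cons_ne_left {n : ℕ} {a : ℂ} (b : Fin (n + 1) → ℂ) (ha : a ≠ 0) :
    (Fin.cons a b : Fin (n + 2) → ℂ) ≠ 0 := by
  intro h
  apply ha
  have := congrFun h 0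
  simpa using this

theorem cons_ne_right {n : ℕ} (a : ℂ) {b : Fin (n + 1) → ℂ} (hb : b ≠ 0) :
    (Fin.cons a b : Fin (n + 2) → ℂ) ≠ 0 := by
  intro h
  apply hb
  have : (Fin.tail (Fin.cons a b : Fin (n + 2) → ℂ) : Fin (n + 1) → ℂ) = 0 := by
    rw [h]; rfl
  simpa using this

theorem union_O (n : ℕ) : O1 n ∪ O2 n = Set.univ := by
  refine Set.eq_univ_of_forall fun P => ?_
  by_contra h
  rw [Set.mem_union, not_or] at h
  obtain ⟨h1, h2⟩ := h
  unfold O1 at h1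
  unfold O2 at h2
  rw [Set.mem_ofPred_eq, not_not] at h1 h2
  apply PP.rep_ne P
  funext i
  refine Fin.cases h2 (fun i => ?_) i
  exact congrFun h1 i

/-! ### first set -/

/-- projection from the point -/
def f1 (n : ℕ) (P : O1 n) : CPn n := mk (Fin.tail (PP.rep P.1)) P.2

theorem f1_pt {n : ℕ} (x : XU (O1 n)) :
    f1 n (pt x) = mk (Fin.tail x.1) ((mem_O1 x.1 x.2.1).1 x.2.2) := by
  obtain ⟨a, ha, h⟩ := rep_mk x.1 x.2.1
  refine mk_smul a _ _ _ _ ha ?_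
  change a • (Fin.tail x.1 : Fin (n + 1) → ℂ) = Fin.tail (PP.rep (mk x.1 x.2.1))
  rw [h]
  rfl

theorem cont_f1 (hCMK : T_CMK) (n : ℕ) : Continuous (f1 n) := by
  refine cont_of' (isOpen_O1 n) _ ?_
  have e : (fun x : XU (O1 n) => f1 n (pt x)) =
      fun x => mk (Fin.tail x.1) ((mem_O1 x.1 x.2.1).1 x.2.2) := funext f1_pt
  rw [e]
  exact hCMK (XU (O1 n)) n (fun x => Fin.tail x.1) _ (cont_tail.comp continuous_subtype_val)

/-- embedding of the hyperplane -/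
def g1 (n : ℕ) (Q : CPn n) : O1 n :=
  ⟨mk (Fin.cons 0 (PP.rep Q)) (cons_ne_right 0 (PP.rep_ne Q)), by
    rw [mem_O1]
    simpa using PP.rep_ne Q⟩

theorem g1_mk {n : ℕ} (x : Fin (n + 1) → ℂ) (hx : x ≠ 0) :
    (g1 n (mk x hx)).1 = mk (Fin.cons 0 x) (cons_ne_right 0 hx) := by
  obtain ⟨a, ha, h⟩ := rep_mk x hx
  refine mk_smul a _ _ _ _ ha ?_
  rw [h]
  funext i
  refine Fin.cases ?_ (fun i => ?_) i
  · simp
  · simp

theorem cont_g1 (hCMK : T_CMK) (n : ℕ) : Continuous (g1 n) := by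
  refine Continuous.subtype_mk (f := fun Q => (g1 n Q).1) ?_ _
  have h1 : Continuous fun Q : (Set.univ : Set (CPn n)) => (g1 n Q.1).1 := by
    refine cont_of' isOpen_univ _ ?_
    have e : (fun x : XU (Set.univ : Set (CPn n)) => (g1 n (pt x).1).1) =
        fun x => mk (Fin.cons 0 x.1) (cons_ne_right 0 x.2.1) := by
      funext x
      exact g1_mk x.1 x.2.1
    rw [e]
    exact hCMK _ (n + 1) (fun x : XU (Set.univ : Set (CPn n)) => Fin.cons 0 x.1) _
      (cont_cons continuous_const continuous_subtype_val)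
  exact h1.comp (Continuous.subtype_mk continuous_id fun _ => Set.mem_univ _)

/-- the homotopy on the first set -/
def H1 (n : ℕ) (p : I × O1 n) : O1 n :=
  ⟨mk (Fin.cons (((1 - (p.1 : ℝ) : ℝ) : ℂ) * PP.rep p.2.1 0) (Fin.tail (PP.rep p.2.1)))
    (cons_ne_right _ p.2.2), by
    rw [mem_O1, Fin.tail_cons]
    exact p.2.2⟩

theorem H1_pt {n : ℕ} (t : I) (x : XU (O1 n)) :
    (H1 n (t, pt x)).1 = mk (Fin.cons (((1 - (t : ℝ) : ℝ) : ℂ) * x.1 0) (Fin.tail x.1))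
      (cons_ne_right _ ((mem_O1 x.1 x.2.1).1 x.2.2)) := by
  obtain ⟨a, ha, h⟩ := rep_mk x.1 x.2.1
  refine mk_smul a _ _ _ _ ha ?_
  change _ = (Fin.cons (((1 - (t : ℝ) : ℝ) : ℂ) * PP.rep (mk x.1 x.2.1) 0)
    (Fin.tail (PP.rep (mk x.1 x.2.1))) : Fin (n + 2) → ℂ)
  rw [h]
  funext i
  refine Fin.cases ?_ (fun i => ?_) i
  · simp only [Pi.smul_apply, Fin.cons_zero, smul_eq_mul]
    ring
  · simp [Fin.tail]

theorem cont_H1 (hCMK : T_CMK) (n : ℕ) : Continuous (H1 n) := by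
  refine Continuous.subtype_mk (f := fun p => (H1 n p).1) ?_ _
  refine cont_of (isOpen_O1 n) _ ?_
  have e : (fun p : I × XU (O1 n) => (H1 n (p.1, pt p.2)).1) =
      fun p => mk (Fin.cons (((1 - (p.1 : ℝ) : ℝ) : ℂ) * p.2.1 0) (Fin.tail p.2.1))
      (cons_ne_right _ ((mem_O1 p.2.1 p.2.2.1).1 p.2.2.2)) := by
    funext p
    exact H1_pt p.1 p.2
  rw [e]
  refine hCMK _ (n + 1) (fun p : I × XU (O1 n) =>
    Fin.cons (((1 - (p.1 : ℝ) : ℝ) : ℂ) * p.2.1 0) (Fin.tail p.2.1)) _ (cont_cons ?_ ?_)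
  · refine Continuous.mul ?_ ?_
    · exact Complex.continuous_ofReal.comp
        (continuous_const.sub (continuous_subtype_val.comp continuous_fst))
    · exact (continuous_apply 0).comp (continuous_subtype_val.comp continuous_snd)
  · exact cont_tail.comp (continuous_subtype_val.comp continuous_snd)

theorem mk_rep' {m : ℕ} (P : CPn m) (h : PP.rep P ≠ 0) : mk (PP.rep P) h = P := PP.mk_rep P

theorem H1_zero {n : ℕ} (P : O1 n) : H1 n (0, P) = P := by
  apply Subtype.ext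
  have h : (Fin.cons (((1 - ((0 : I) : ℝ) : ℝ) : ℂ) * PP.rep P.1 0) (Fin.tail (PP.rep P.1)) :
      Fin (n + 2) → ℂ) = PP.rep P.1 := by
    have h1 : ((1 - ((0 : I) : ℝ) : ℝ) : ℂ) * PP.rep P.1 0 = PP.rep P.1 0 := by simp
    rw [h1, Fin.cons_self_tail]
  refine Eq.trans ?_ (mk_rep' P.1 (PP.rep_ne P.1))
  exact mk_smul 1 _ _ _ _ one_ne_zero ((one_smul _ _).trans h.symm)

theorem H1_one {n : ℕ} (P : O1 n) : H1 n (1, P) = g1 n (f1 n P) := by
  apply Subtype.ext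
  refine Eq.trans ?_ (g1_mk _ P.2).symm
  refine mk_smul 1 _ _ _ _ one_ne_zero ((one_smul _ _).trans ?_)
  simp

theorem set1 (hHEQ : T_HEQ) (hCMK : T_CMK) (n m : ℕ) (h : Van m (CPn n)) : Van m (O1 n) := by
  let f : C(O1 n, CPn n) := ⟨f1 n, cont_f1 hCMK n⟩
  let g : C(CPn n, O1 n) := ⟨g1 n, cont_g1 hCMK n⟩
  have hh : (g.comp f).Homotopic (ContinuousMap.id (O1 n)) := by
    refine ContinuousMap.Homotopic.symm ⟨⟨⟨H1 n, cont_H1 hCMK n⟩, ?_, ?_⟩⟩
    · intro P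
      exact H1_zero P
    · intro P
      exact H1_one P
  exact (hHEQ _ _ f g hh m).1 h

/-! ### second set -/

/-- the homotopy on the second set -/
def H2 (n : ℕ) (p : I × O2 n) : O2 n :=
  ⟨mk (Fin.cons (PP.rep p.2.1 0) (((1 - (p.1 : ℝ) : ℝ) : ℂ) • Fin.tail (PP.rep p.2.1)))
    (cons_ne_left _ p.2.2), by
    rw [mem_O2, Fin.cons_zero]
    exact p.2.2⟩

theorem H2_pt {n : ℕ} (t : I) (x : XU (O2 n)) :
    (H2 n (t, pt x)).1 = mk (Fin.cons (x.1 0) (((1 - (t : ℝ) : ℝ) : ℂ) • Fin.tail x.1))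
      (cons_ne_left _ ((mem_O2 x.1 x.2.1).1 x.2.2)) := by
  obtain ⟨a, ha, h⟩ := rep_mk x.1 x.2.1
  refine mk_smul a _ _ _ _ ha ?_
  change _ = (Fin.cons (PP.rep (mk x.1 x.2.1) 0)
    (((1 - (t : ℝ) : ℝ) : ℂ) • Fin.tail (PP.rep (mk x.1 x.2.1))) : Fin (n + 2) → ℂ)
  rw [h]
  funext i
  refine Fin.cases ?_ (fun i => ?_) i
  · simp
  · simp only [Pi.smul_apply, Fin.cons_succ, smul_eq_mul, Fin.tail]
    ring

theorem cont_H2 (hCMK : T_CMK) (n : ℕ) : Continuous (H2 n) := by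
  refine Continuous.subtype_mk (f := fun p => (H2 n p).1) ?_ _
  refine cont_of (isOpen_O2 n) _ ?_
  have e : (fun p : I × XU (O2 n) => (H2 n (p.1, pt p.2)).1) =
      fun p => mk (Fin.cons (p.2.1 0) (((1 - (p.1 : ℝ) : ℝ) : ℂ) • Fin.tail p.2.1))
      (cons_ne_left _ ((mem_O2 p.2.1 p.2.2.1).1 p.2.2.2)) := by
    funext p
    exact H2_pt p.1 p.2
  rw [e]
  refine hCMK _ (n + 1) (fun p : I × XU (O2 n) =>
    Fin.cons (p.2.1 0) (((1 - (p.1 : ℝ) : ℝ) : ℂ) • Fin.tail p.2.1)) _ (cont_cons ?_ ?_)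
  · exact (continuous_apply 0).comp (continuous_subtype_val.comp continuous_snd)
  · have h1 : Continuous fun p : I × XU (O2 n) => ((1 - (p.1 : ℝ) : ℝ) : ℂ) :=
      Complex.continuous_ofReal.comp
        (continuous_const.sub (continuous_subtype_val.comp continuous_fst))
    have h2 : Continuous fun p : I × XU (O2 n) => (Fin.tail p.2.1 : Fin (n + 1) → ℂ) :=
      cont_tail.comp (continuous_subtype_val.comp continuous_snd)
    exact h1.smul h2

theorem H2_zero {n : ℕ} (P : O2 n) : H2 n (0, P) = P := by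
  apply Subtype.ext
  have h : (Fin.cons (PP.rep P.1 0) (((1 - ((0 : I) : ℝ) : ℝ) : ℂ) • Fin.tail (PP.rep P.1)) :
      Fin (n + 2) → ℂ) = PP.rep P.1 := by
    have h1 : ((1 - ((0 : I) : ℝ) : ℝ) : ℂ) • (Fin.tail (PP.rep P.1) : Fin (n + 1) → ℂ) =
        Fin.tail (PP.rep P.1) := by simp
    rw [h1, Fin.cons_self_tail]
  refine Eq.trans ?_ (mk_rep' P.1 (PP.rep_ne P.1))
  exact mk_smul 1 _ _ _ _ one_ne_zero ((one_smul _ _).trans h.symm)

/-- the centre of the second set -/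
def c2 (n : ℕ) : O2 n := ⟨mk (Fin.cons 1 0) (cons_ne_left 0 one_ne_zero), by
  rw [mem_O2]; simp⟩

theorem H2_one {n : ℕ} (P : O2 n) : H2 n (1, P) = c2 n := by
  apply Subtype.ext
  refine mk_smul (PP.rep P.1 0) _ _ _ _ P.2 ?_
  funext i
  refine Fin.cases ?_ (fun i => ?_) i
  · simp
  · simp

theorem contr2 (hCMK : T_CMK) (n : ℕ) : ContractibleSpace (O2 n) := by
  rw [contractible_iff_id_nullhomotopic]
  refine ⟨c2 n, ⟨⟨⟨H2 n, cont_H2 hCMK n⟩, ?_, ?_⟩⟩⟩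
  · intro P
    exact H2_zero P
  · intro P
    exact H2_one P

/-! ### the intersection -/

/-- real coordinates -/
def el (n : ℕ) : (Fin (n + 1) → ℂ) ≃L[ℝ] (Fin (2 * (n + 1)) → ℝ) :=
  ContinuousLinearEquiv.ofFinrankEq (by
    rw [Module.finrank_pi_fintype, Module.finrank_fin_fun]
    simp [Complex.finrank_real_complex]
    ring)

/-- the quotients of the coordinates -/
def dv {n : ℕ} (x : Fin (n + 2) → ℂ) : Fin (n + 1) → ℂ := (x 0)⁻¹ • Fin.tail x

theorem dv_ne {n : ℕ} {x : Fin (n + 2) → ℂ} (h0 : x 0 ≠ 0)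
    (h1 : (Fin.tail x : Fin (n + 1) → ℂ) ≠ 0) : dv x ≠ 0 := smul_ne_zero (inv_ne_zero h0) h1

theorem dv_smul {n : ℕ} (a : ℂ) (ha : a ≠ 0) (x : Fin (n + 2) → ℂ) : dv (a • x) = dv x := by
  unfold dv
  rw [tail_smul, smul_smul, Pi.smul_apply, smul_eq_mul, mul_inv_rev, mul_assoc,
    inv_mul_cancel₀ ha, mul_one]

/-- the coordinates of the intersection -/
def f3 (n : ℕ) (P : ↥(O1 n ∩ O2 n)) : Pn (2 * (n + 1)) :=
  ⟨el n (dv (PP.rep P.1)), by
    rw [Ne, EmbeddingLike.map_eq_zero_iff]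
    exact dv_ne P.2.2 P.2.1⟩

theorem cont_dv (n : ℕ) : Continuous fun x : XU (O1 n ∩ O2 n) => dv x.1 := by
  have h1 : Continuous fun x : XU (O1 n ∩ O2 n) => (x.1 0)⁻¹ := by
    refine Continuous.inv₀ ((continuous_apply 0).comp continuous_subtype_val) fun x => ?_
    exact (mem_O2 x.1 x.2.1).1 x.2.2.2
  have h2 : Continuous fun x : XU (O1 n ∩ O2 n) => (Fin.tail x.1 : Fin (n + 1) → ℂ) :=
    cont_tail.comp continuous_subtype_val
  exact h1.smul h2

theorem cont_f3' (n : ℕ) :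
    Continuous fun P : ↥(O1 n ∩ O2 n) => el n (dv (PP.rep P.1)) := by
  refine cont_of' ((isOpen_O1 n).inter (isOpen_O2 n)) _ ?_
  have e : (fun x : XU (O1 n ∩ O2 n) => el n (dv (PP.rep (pt x).1))) = fun x => el n (dv x.1) := by
    funext x
    obtain ⟨a, ha, h⟩ := rep_mk x.1 x.2.1
    change el n (dv (PP.rep (mk x.1 x.2.1))) = _
    rw [h, dv_smul a ha]
  rw [e]
  exact (el n).continuous.comp (cont_dv n)

theorem cont_f3 (n : ℕ) : Continuous (f3 n) := by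
  have h0 : Continuous fun P : ↥(O1 n ∩ O2 n) => el n (dv (PP.rep P.1)) := cont_f3' n
  exact h0.subtype_mk _

/-- back -/
def g3 (n : ℕ) (v : Pn (2 * (n + 1))) : ↥(O1 n ∩ O2 n) :=
  ⟨mk (Fin.cons 1 ((el n).symm v.1)) (cons_ne_left _ one_ne_zero), by
    refine ⟨?_, ?_⟩
    · rw [mem_O1, Fin.tail_cons, Ne, EmbeddingLike.map_eq_zero_iff]
      exact v.2
    · rw [mem_O2]
      simp⟩

theorem cont_g3 (hCMK : T_CMK) (n : ℕ) : Continuous (g3 n) := by
  refine Continuous.subtype_mk (f := fun v => (g3 n v).1) ?_ _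
  exact hCMK _ (n + 1) (fun v : Pn (2 * (n + 1)) => Fin.cons 1 ((el n).symm v.1)) _
    (cont_cons continuous_const ((el n).symm.continuous.comp continuous_subtype_val))

theorem g3_f3 {n : ℕ} (P : ↥(O1 n ∩ O2 n)) : g3 n (f3 n P) = P := by
  apply Subtype.ext
  refine Eq.trans ?_ (mk_rep' P.1 (PP.rep_ne P.1))
  refine mk_smul (PP.rep P.1 0)⁻¹ _ _ _ _ (inv_ne_zero P.2.2) ?_
  have h1 : (el n).symm (f3 n P).1 = dv (PP.rep P.1) := (el n).symm_apply_apply _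
  rw [h1]
  funext i
  refine Fin.cases ?_ (fun i => ?_) i
  · rw [Pi.smul_apply, smul_eq_mul, Fin.cons_zero, inv_mul_cancel₀ P.2.2]
  · rfl

theorem homot3 (hCMK : T_CMK) (n : ℕ) :
    ((⟨g3 n, cont_g3 hCMK n⟩ : C(Pn (2 * (n + 1)), ↥(O1 n ∩ O2 n))).comp
      ⟨f3 n, cont_f3 n⟩).Homotopic (ContinuousMap.id ↥(O1 n ∩ O2 n)) := by
  have h : (⟨g3 n, cont_g3 hCMK n⟩ : C(Pn (2 * (n + 1)), ↥(O1 n ∩ O2 n))).comp
      ⟨f3 n, cont_f3 n⟩ = ContinuousMap.id ↥(O1 n ∩ O2 n) :=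
    ContinuousMap.ext fun P => g3_f3 P
  rw [h]

/-- CPU: two open sets of the projective space. -/
theorem pf_CPU (hHEQ : T_HEQ) (hCTR : T_CTR) (hCMK : T_CMK) : T_CPU := by
  intro n
  refine ⟨O1 n, O2 n, isOpen_O1 n, isOpen_O2 n, union_O n, fun m h => set1 hHEQ hCMK n m h,
    fun m => ?_, fun m h => (hHEQ _ _ _ _ (homot3 hCMK n) m).1 h,
    fun m h => (hHEQ _ _ _ _ (homot3 hCMK n) m).2 h⟩
  have := contr2 hCMK n
  exact hCTR _ m

end

end Pool.Agent.H67.FL
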