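import Pool.Agent.H58.FL.TargetsB

/-!
# The homology of the punctured space (row PUN of flc_modules)
-/

set_option autoImplicit false

open Topology

namespace Pool.Agent.H67.FL

open Pool.Agent.H58.FL Pool.Agent.H59 Pool.Agent.H48.FR

noncomputable section

instance emptyDl : IsEmpty (Dl 0) := ⟨fun x => by
  have h := x.2.2
  simp at h⟩

instance subSmp (Y : Type) [TopologicalSpace Y] : Subsingleton (Smp 0 Y) :=
  ⟨fun _ _ => ContinuousMap.ext fun x => (IsEmpty.false x).elim⟩

/-- the empty simplex -/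
def eps (Y : Type) [TopologicalSpace Y] : Smp 0 Y :=
  ⟨fun x => (IsEmpty.false x).elim, by
    refine continuous_of_discreteTopology⟩

theorem ch0_eq (Y : Type) [TopologicalSpace Y] (z : Ch ℤ 0 Y) :
    z = z (eps Y) • Finsupp.single (eps Y) (1 : ℤ) := by
  ext σ
  have h : σ = eps Y := Subsingleton.elim _ _
  rw [h]
  simp

theorem van_empty (Y : Type) [TopologicalSpace Y] [IsEmpty Y] (n : ℕ) (hn : n ≠ 0) : Van n Y := by
  obtain ⟨k, rfl⟩ : ∃ k, n = k + 1 := ⟨n - 1, by omega⟩
  intro z _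
  have h : IsEmpty (Smp (k + 1) Y) := ⟨fun σ => by
    have x : Dl (k + 1) := ⟨Pi.single 0 1, single_mem_stdSimplex ℝ 0⟩
    exact IsEmpty.false (σ x)⟩
  refine ⟨0, ?_⟩
  rw [map_zero]
  ext σ
  exact (h.false σ).elim

theorem cyc_zero (Y : Type) [TopologicalSpace Y] : Cyc 0 Y := by
  refine ⟨Finsupp.single (eps Y) 1, trivial, fun z _ => ⟨z (eps Y), 0, ?_⟩⟩
  rw [map_zero, ← ch0_eq Y z, sub_self]

theorem van_zero (Y : Type) [TopologicalSpace Y] [Nonempty Y] : Van 0 Y := by
  intro z _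
  obtain ⟨a⟩ := ‹Nonempty Y›
  have h1 : bd ℤ 0 Y (Finsupp.single (ContinuousMap.const _ a) 1) =
      Finsupp.single (eps Y) (1 : ℤ) := by
    rw [bd_single, one_smul, Fintype.sum_eq_single (0 : Fin (0 + 1))
      (fun x hx => absurd (Subsingleton.elim (α := Fin 1) x 0) hx)]
    rw [show ((0 : Fin (0 + 1)) : ℕ) = 0 from rfl, pow_zero, one_smul,
      show fc (ContinuousMap.const (↑(Dl (0 + 1))) a) 0 = eps Y from
        ContinuousMap.ext fun x => (emptyDl.false x).elim]
  refine ⟨z (eps Y) • Finsupp.single (ContinuousMap.const _ a) 1, ?_⟩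
  rw [map_smul, h1, ← ch0_eq Y z]

/-- the model of the first open set; `s = 1` or `s = -1` -/
def Sst (m : ℕ) (s : ℝ) : Set (Fin (m + 1) → ℝ) :=
  {x | (∃ i : Fin m, x i.castSucc ≠ 0) ∨ 0 < s * x (Fin.last m)}

theorem star (m : ℕ) (s : ℝ) (hs : s * s = 1) :
    StarConvex ℝ (Pi.single (Fin.last m) s : Fin (m + 1) → ℝ) (Sst m s) := by
  intro x hx a b ha hb hab
  rcases eq_or_lt_of_le hb with hb0 | hb0
  · right
    have ha1 : a = 1 := by linarith
    have h1 : (a • (Pi.single (Fin.last m) s : Fin (m + 1) → ℝ) + b • x) (Fin.last m) = s := by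
      simp [← hb0, ha1]
    rw [h1, hs]
    norm_num
  · rcases hx with ⟨i, hi⟩ | hx
    · left
      refine ⟨i, ?_⟩
      have h1 : (a • (Pi.single (Fin.last m) s : Fin (m + 1) → ℝ) + b • x) i.castSucc =
          b * x i.castSucc := by
        simp [(Fin.castSucc_lt_last i).ne]
      rw [h1]
      exact mul_ne_zero hb0.ne' hi
    · right
      have h1 : (a • (Pi.single (Fin.last m) s : Fin (m + 1) → ℝ) + b • x) (Fin.last m) =
          a * s + b * x (Fin.last m) := by
        simp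
      rw [h1, mul_add]
      have h2 : s * (a * s) = a := by
        calc s * (a * s) = a * (s * s) := by ring
          _ = a := by rw [hs, mul_one]
      have h3 : s * (b * x (Fin.last m)) = b * (s * x (Fin.last m)) := by ring
      rw [h2, h3]
      positivity

/-- continuity of maps into the punctured space -/
theorem cont_mk {X : Type} [TopologicalSpace X] {m : ℕ} (f : X → Fin m → ℝ) (hf : Continuous f)
    (h : ∀ x, f x ≠ 0) : Continuous fun x => (⟨f x, h x⟩ : Pn m) :=
  Continuous.subtype_mk hf h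

/-- continuity of the coordinates -/
theorem cont_val (m : ℕ) : Continuous fun x : Pn m => x.1 := continuous_subtype_val

/-- the open sets -/
def Oo (m : ℕ) (s : ℝ) : Set (Pn (m + 1)) := {x | x.1 ∈ Sst m s}

theorem isOpen_Oo (m : ℕ) (s : ℝ) : IsOpen (Oo m s) := by
  have h1 : IsOpen (Sst m s) := by
    have e1 : Sst m s = (⋃ i : Fin m, {x : Fin (m + 1) → ℝ | x i.castSucc ≠ 0}) ∪
        {x | 0 < s * x (Fin.last m)} := by
      ext x
      simp [Sst]
    rw [e1]
    refine IsOpen.union (isOpen_iUnion fun i => ?_) ?_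
    · exact isOpen_ne_fun (continuous_apply _) continuous_const
    · exact isOpen_lt continuous_const (continuous_const.mul (continuous_apply _))
  exact h1.preimage (cont_val _)

theorem van_Oo (hHEQ : T_HEQ) (hCTR : T_CTR) (m : ℕ) (s : ℝ) (hs : s * s = 1) (n : ℕ) :
    Van n (Oo m s) := by
  have hne : (Sst m s).Nonempty := ⟨Pi.single (Fin.last m) s, by
    right
    simp [hs]⟩
  have hc : ContractibleSpace (Sst m s) := (star m s hs).contractibleSpace hne
  have hv : Van n (Sst m s) := hCTR _ n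
  let f : C(Oo m s, Sst m s) := ⟨fun x => ⟨x.1.1, x.2⟩,
    Continuous.subtype_mk ((cont_val _).comp continuous_subtype_val) _⟩
  have hnz : ∀ x : Sst m s, x.1 ≠ 0 := by
    rintro ⟨x, hx⟩ h0
    simp only at h0
    rcases hx with ⟨i, hi⟩ | hx
    · exact hi (by rw [h0]; rfl)
    · rw [h0] at hx
      simp at hx
  let g : C(Sst m s, Oo m s) := ⟨fun x => ⟨⟨x.1, hnz x⟩, x.2⟩,
    Continuous.subtype_mk (cont_mk _ continuous_subtype_val hnz) _⟩
  have hgf : g.comp f = ContinuousMap.id _ := by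
    ext x
    rfl
  exact (hHEQ _ _ f g (by rw [hgf]) n).1 hv

theorem ret (m : ℕ) : ∃ (f : C(↥(Oo m 1 ∩ Oo m (-1)), Pn m)) (g : C(Pn m, ↥(Oo m 1 ∩ Oo m (-1)))),
    (g.comp f).Homotopic (ContinuousMap.id _) := by
  have hmem : ∀ x : Pn (m + 1), x ∈ Oo m 1 ∩ Oo m (-1) ↔ ∃ i : Fin m, x.1 i.castSucc ≠ 0 := by
    intro x
    constructor
    · rintro ⟨h1 | h1, h2 | h2⟩
      · exact h1
      · exact h1
      · exact h2
      · exfalso
        linarith
    · intro h
      exact ⟨Or.inl h, Or.inl h⟩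
  let f : C(↥(Oo m 1 ∩ Oo m (-1)), Pn m) := ⟨fun x => ⟨fun i => x.1.1 i.castSucc, fun h0 => by
      obtain ⟨i, hi⟩ := (hmem x.1).1 x.2
      exact hi (congrFun h0 i)⟩, by
    refine cont_mk _ (continuous_pi fun i => ?_) _
    exact (continuous_apply _).comp ((cont_val _).comp continuous_subtype_val)⟩
  have hsn : ∀ (y : Pn m) (t : ℝ), ∃ i : Fin m,
      (Fin.snoc y.1 t : Fin (m + 1) → ℝ) i.castSucc ≠ 0 := by
    intro y t
    by_contra h
    push Not at h
    apply y.2
    funext i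
    have := h i
    rwa [Fin.snoc_castSucc] at this
  have hsc : Continuous fun p : (Fin m → ℝ) × ℝ => (Fin.snoc p.1 p.2 : Fin (m + 1) → ℝ) := by
    refine continuous_pi fun i => ?_
    refine Fin.lastCases ?_ (fun i => ?_) i
    · simp only [Fin.snoc_last]
      exact continuous_snd
    · simp only [Fin.snoc_castSucc]
      exact (continuous_apply i).comp continuous_fst
  have hne : ∀ (y : Pn m) (t : ℝ), (Fin.snoc y.1 t : Fin (m + 1) → ℝ) ≠ 0 := by
    intro y t h0
    obtain ⟨i, hi⟩ := hsn y t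
    exact hi (congrFun h0 _)
  let G : Pn m × ℝ → ↥(Oo m 1 ∩ Oo m (-1)) := fun p =>
    ⟨⟨Fin.snoc p.1.1 p.2, hne p.1 p.2⟩, (hmem _).2 (hsn p.1 p.2)⟩
  have hG : Continuous G := by
    refine Continuous.subtype_mk (cont_mk _ ?_ _) _
    exact hsc.comp (Continuous.prodMk ((cont_val _).comp continuous_fst) continuous_snd)
  let g : C(Pn m, ↥(Oo m 1 ∩ Oo m (-1))) := ⟨fun y => G (y, 0), by fun_prop⟩
  refine ⟨f, g, ⟨⟨⟨fun p => G (f p.2, (p.1 : ℝ) * p.2.1.1 (Fin.last m)), ?_⟩, ?_, ?_⟩⟩⟩
  · refine hG.comp (Continuous.prodMk (f.continuous.comp continuous_snd) ?_)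
    refine (continuous_subtype_val.comp continuous_fst).mul ?_
    exact (continuous_apply _).comp ((cont_val _).comp
      (continuous_subtype_val.comp continuous_snd))
  · intro x
    show G (f x, ((0 : unitInterval) : ℝ) * x.1.1 (Fin.last m)) = G (f x, 0)
    rw [Set.Icc.coe_zero, zero_mul]
  · intro x
    show G (f x, ((1 : unitInterval) : ℝ) * x.1.1 (Fin.last m)) = x
    rw [Set.Icc.coe_one, one_mul]
    apply Subtype.ext
    apply Subtype.ext
    funext i
    refine Fin.lastCases ?_ (fun i => ?_) i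
    · show (Fin.snoc (f x).1 (x.1.1 (Fin.last m)) : Fin (m + 1) → ℝ) (Fin.last m) = _
      rw [Fin.snoc_last]
    · show (Fin.snoc (f x).1 (x.1.1 (Fin.last m)) : Fin (m + 1) → ℝ) i.castSucc = _
      rw [Fin.snoc_castSucc]
      rfl

theorem pf_PUN (hHEQ : T_HEQ) (hCTR : T_CTR) (hMVL : T_MVL) : T_PUN := by
  intro m
  induction m with
  | zero =>
    have h : IsEmpty (Pn 0) := ⟨fun x => x.2 (Subsingleton.elim _ _)⟩
    exact ⟨fun n hn => van_empty _ n hn, cyc_zero _⟩
  | succ m ih =>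
    have hne : Nonempty (Pn (m + 1)) := ⟨⟨fun _ => 1, fun h => by
      have := congrFun h 0
      simp at this⟩⟩
    have hcov : Oo m 1 ∪ Oo m (-1) = Set.univ := by
      rw [Set.eq_univ_iff_forall]
      intro x
      by_cases h : ∃ i : Fin m, x.1 i.castSucc ≠ 0
      · exact Or.inl (Or.inl h)
      · push Not at h
        have h1 : x.1 (Fin.last m) ≠ 0 := by
          intro h2
          apply x.2
          funext i
          refine Fin.lastCases ?_ (fun i => ?_) i
          · exact h2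
          · exact h i
        rcases lt_or_gt_of_ne h1 with h2 | h2
        · refine Or.inr (Or.inr ?_)
          linarith
        · refine Or.inl (Or.inr ?_)
          linarith
    obtain ⟨f, g, hfg⟩ := ret m
    have hM : ∀ n, (Van n ↥(Oo m 1 ∩ Oo m (-1)) → Van (n + 1) (Pn (m + 1))) ∧
        (Cyc n ↥(Oo m 1 ∩ Oo m (-1)) → Cyc (n + 1) (Pn (m + 1))) := fun n =>
      hMVL (Pn (m + 1)) (Oo m 1) (Oo m (-1)) (isOpen_Oo m 1) (isOpen_Oo m (-1)) hcov n
        (van_Oo hHEQ hCTR m 1 (by norm_num) (n + 1)) (van_Oo hHEQ hCTR m (-1) (by norm_num) (n + 1))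
    refine ⟨?_, (hM m).2 ((hHEQ _ _ f g hfg m).2 ih.2)⟩
    intro n hn
    cases n with
    | zero => exact van_zero _
    | succ n => exact (hM n).1 ((hHEQ _ _ f g hfg n).1 (ih.1 n (by omega)))

end

end Pool.Agent.H67.FL
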